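import Mathlib
import Pool.Agent.H853R3.Task469G
import Pool.Agent.H144R3.Task469F

/-!
# Vanishing at the integers of one parity

Let `Θ(x) = ∑ α_n cos(u_n x)` satisfy `Θ(x) = σ x^(2m) Θ(1/x)`, without a period polynomial.  Then the entire
continuation of `∑ α_n u_n^(-z)` vanishes at `z = -2, -4, ..., -2(m-1)`.
-/

set_option autoImplicit false

namespace Pool.Agent.Q286.SZ

open Filter Topology MeasureTheory Set Complex Asymptotics
open Pool.Agent.H853R3.Bol Pool.Agent.H469R10.HO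
open Pool.Agent.H144R3.T469F (psi psi_cont isBigO_top uu_pos le_uu summable_term)

/-- bound of the kernel of even order -/
lemma K_even_le (k : ℕ) {t : ℝ} (ht : 0 < t) (x : ℝ) :
    |K (2 * k) t x| ≤ (2 * k + 1) * t / (t ^ 2 + x ^ 2) ^ (k + 1) := by
  obtain ⟨z, hz⟩ : ∃ z : ℂ, z = (t : ℂ) + x * I := ⟨_, rfl⟩
  obtain ⟨w, hw⟩ : ∃ w : ℂ, w = x * I := ⟨_, rfl⟩
  have hzz : ‖z‖ ^ 2 = t ^ 2 + x ^ 2 := by rw [hz]; exact norm_sq_lower t x
  have hz0 : z ≠ 0 := by rw [hz]; exact ne_zero' t ht x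
  have hn0 : 0 < ‖z‖ := norm_pos_iff.2 hz0
  have hwz : ‖w‖ ≤ ‖z‖ := by
    have h1 : ‖w‖ ^ 2 = x ^ 2 := by rw [hw, norm_mul, norm_I, mul_one, norm_real, Real.norm_eq_abs, sq_abs]
    have h2 : ‖w‖ ^ 2 ≤ ‖z‖ ^ 2 := by rw [h1, hzz]; nlinarith [sq_nonneg t]
    exact le_of_sq_le_sq h2 hn0.le
  -- real part of the conjugate power
  have hK : K (2 * k) t x = (z ^ (2 * k + 1)).re / (‖z‖ ^ 2) ^ (2 * k + 1) := by
    unfold K
    rw [← hz, one_div, Complex.inv_re, Complex.normSq_eq_norm_sq, norm_pow]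
    ring
  have hre : (z ^ (2 * k + 1)).re = (z ^ (2 * k + 1) - w ^ (2 * k + 1)).re := by
    rw [Complex.sub_re]
    have : (w ^ (2 * k + 1)).re = 0 := by
      rw [hw, mul_pow, pow_succ I, pow_mul I, I_sq, ← ofReal_pow, Complex.re_ofReal_mul]
      have e : ((-1 : ℂ) ^ k * I).re = 0 := by
        have e2 : ((-1 : ℂ) ^ k) = (((-1 : ℝ) ^ k : ℝ) : ℂ) := by push_cast; rfl
        rw [e2, Complex.re_ofReal_mul, I_re, mul_zero]
      rw [e, mul_zero]
    rw [this, sub_zero]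
  have hg : ‖z ^ (2 * k + 1) - w ^ (2 * k + 1)‖ ≤ t * ((2 * k + 1) * ‖z‖ ^ (2 * k)) := by
    rw [← (Commute.all z w).mul_geom_sum₂ (2 * k + 1), norm_mul]
    have h1 : ‖z - w‖ = t := by
      rw [hz, hw, add_sub_cancel_right, norm_real, Real.norm_of_nonneg ht.le]
    rw [h1]
    refine mul_le_mul_of_nonneg_left ?_ ht.le
    refine (norm_sum_le _ _).trans ?_
    calc ∑ i ∈ Finset.range (2 * k + 1), ‖z ^ i * w ^ (2 * k + 1 - 1 - i)‖
        ≤ ∑ i ∈ Finset.range (2 * k + 1), ‖z‖ ^ (2 * k) := by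
          refine Finset.sum_le_sum fun i hi => ?_
          rw [Finset.mem_range] at hi
          rw [norm_mul, norm_pow, norm_pow]
          calc ‖z‖ ^ i * ‖w‖ ^ (2 * k + 1 - 1 - i) ≤ ‖z‖ ^ i * ‖z‖ ^ (2 * k + 1 - 1 - i) := by
                gcongr
            _ = ‖z‖ ^ (2 * k) := by rw [← pow_add]; congr 1; omega
      _ = (2 * k + 1) * ‖z‖ ^ (2 * k) := by
          rw [Finset.sum_const, Finset.card_range, nsmul_eq_mul]
          push_cast
          ring
  have h3 : |(z ^ (2 * k + 1)).re| ≤ t * ((2 * k + 1) * ‖z‖ ^ (2 * k)) := by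
    rw [hre]
    exact (Complex.abs_re_le_norm _).trans hg
  rw [hK, abs_div, abs_of_pos (pow_pos (pow_pos hn0 2) _), ← hzz,
    div_le_div_iff₀ (by positivity) (by positivity)]
  calc |(z ^ (2 * k + 1)).re| * (‖z‖ ^ 2) ^ (k + 1) ≤
        (t * ((2 * k + 1) * ‖z‖ ^ (2 * k))) * (‖z‖ ^ 2) ^ (k + 1) := by gcongr
    _ = (2 * k + 1) * t * (‖z‖ ^ 2) ^ (2 * k + 1) := by
        rw [← pow_mul, ← pow_mul]
        have : ‖z‖ ^ (2 * (2 * k + 1)) = ‖z‖ ^ (2 * k) * ‖z‖ ^ (2 * (k + 1)) := by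
          rw [← pow_add]; congr 1; ring
        rw [this]
        ring

/-- the theta function of even order is `O(t)` -/
lemma even_small {m k : ℕ} (hk : 1 ≤ k) (hkm : k + 1 ≤ m) {α u : ℕ → ℝ} (hα : Summable fun n => |α n|)
    (hu : ∀ n, 0 ≤ u n) {σ : ℝ} (hσ : |σ| ≤ 1)
    (hrel : ∀ x : ℝ, 0 < x → ∑' n, α n * Real.cos (u n * x) =
      σ * x ^ (2 * m) * ∑' n, α n * Real.cos (u n / x)) :
    ∃ C : ℝ, 0 ≤ C ∧ ∀ t : ℝ, 0 < t → |∑' n, α n * u n ^ (2 * k) * Real.exp (-(u n * t))| ≤ C * t := by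
  obtain ⟨S, hS⟩ : ∃ S : ℝ, S = ∑' n, |α n| := ⟨_, rfl⟩
  have hS0 : 0 ≤ S := by rw [hS]; exact tsum_nonneg fun n => abs_nonneg _
  have hT : ∀ y : ℕ → ℝ, |∑' n, α n * Real.cos (y n)| ≤ S := by
    intro y
    rw [hS, ← Real.norm_eq_abs]
    refine tsum_of_norm_bounded hα.hasSum fun n => ?_
    rw [Real.norm_eq_abs, abs_mul]
    exact mul_le_of_le_one_right (abs_nonneg _) (Real.abs_cos_le_one _)
  have hTx : ∀ x : ℝ, 0 < x → |∑' n, α n * Real.cos (u n * x)| ≤ S * x ^ (2 * m) := by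
    intro x hx
    rw [hrel x hx, abs_mul, abs_mul, abs_of_pos (pow_pos hx _)]
    have h1 := hT (fun n => u n / x)
    calc |σ| * x ^ (2 * m) * |∑' n, α n * Real.cos (u n / x)| ≤ 1 * x ^ (2 * m) * S := by gcongr
      _ = _ := by ring
  have hpi := Real.pi_pos
  refine ⟨2 * (2 * k).factorial / Real.pi * ((2 * k + 1) * S * 2 * (Real.pi / 2)), by positivity, fun t ht => ?_⟩
  rw [theta_eq t ht (2 * k) (by omega) α u hα hu, abs_mul, abs_of_nonneg (by positivity), mul_assoc]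
  refine mul_le_mul_of_nonneg_left ?_ (by positivity)
  rw [← Real.norm_eq_abs]
  have hgi : Integrable (fun x : ℝ => (2 * k + 1) * S * 2 * t * (1 + x ^ 2)⁻¹) (volume.restrict (Ioi 0)) :=
    (integrable_inv_one_add_sq.integrableOn).const_mul _
  have hgv : ∫ x in Ioi (0 : ℝ), (2 * k + 1) * S * 2 * t * (1 + x ^ 2)⁻¹ =
      (2 * k + 1) * S * 2 * (Real.pi / 2) * t := by
    rw [integral_const_mul, integral_Ioi_inv_one_add_sq]
    simp
    ring
  rw [← hgv]
  refine norm_integral_le_of_norm_le hgi ?_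
  rw [ae_restrict_iff' measurableSet_Ioi]
  refine Eventually.of_forall fun x hx => ?_
  have hx0 : (0 : ℝ) < x := hx
  rw [norm_mul, Real.norm_eq_abs, Real.norm_eq_abs]
  have hK := K_even_le k ht x
  have hK2 : |K (2 * k) t x| ≤ (2 * k + 1) * t / (x ^ 2) ^ (k + 1) := by
    refine hK.trans ?_
    gcongr
    nlinarith [sq_nonneg t]
  have hkk : (0 : ℝ) ≤ 2 * k + 1 := by positivity
  rcases le_total x 1 with h1 | h1
  · have e1 : x ^ (2 * m) ≤ (x ^ 2) ^ (k + 1) := by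
      rw [← pow_mul]
      exact pow_le_pow_of_le_one hx0.le h1 (by omega)
    have e2 : (1 : ℝ) ≤ 2 * (1 + x ^ 2)⁻¹ := by
      rw [← div_eq_mul_inv, le_div_iff₀ (by positivity)]
      nlinarith
    calc |∑' j, α j * Real.cos (u j * x)| * |K (2 * k) t x|
        ≤ (S * x ^ (2 * m)) * ((2 * k + 1) * t / (x ^ 2) ^ (k + 1)) :=
          mul_le_mul (hTx x hx0) hK2 (abs_nonneg _) (by positivity)
      _ ≤ (S * (x ^ 2) ^ (k + 1)) * ((2 * k + 1) * t / (x ^ 2) ^ (k + 1)) := by gcongr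
      _ = (2 * k + 1) * S * t * 1 := by field_simp
      _ ≤ (2 * k + 1) * S * t * (2 * (1 + x ^ 2)⁻¹) := by gcongr
      _ = _ := by ring
  · have e1 : x ^ 2 ≤ (x ^ 2) ^ (k + 1) := by
      have : (1 : ℝ) ≤ x ^ 2 := by nlinarith
      exact le_self_pow₀ this (by omega)
    have e2 : 1 / x ^ 2 ≤ 2 * (1 + x ^ 2)⁻¹ := by
      rw [← div_eq_mul_inv, div_le_div_iff₀ (by positivity) (by positivity)]
      nlinarith
    calc |∑' j, α j * Real.cos (u j * x)| * |K (2 * k) t x|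
        ≤ S * ((2 * k + 1) * t / (x ^ 2) ^ (k + 1)) :=
          mul_le_mul (hT _) hK2 (abs_nonneg _) hS0
      _ ≤ S * ((2 * k + 1) * t / x ^ 2) := by gcongr
      _ = (2 * k + 1) * S * t * (1 / x ^ 2) := by ring
      _ ≤ (2 * k + 1) * S * t * (2 * (1 + x ^ 2)⁻¹) := by gcongr
      _ = _ := by ring

/-- **vanishing** at the odd integers `2 m + 1 - 2 k`, `1 ≤ k ≤ m - 1` -/
theorem van {c lam : ℝ} (hc : 0 < c) (hlam : 1 ≤ lam) {m k : ℕ} (hk : 1 ≤ k) (hkm : k + 1 ≤ m)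
    {α : ℕ → ℝ} (hα : Summable fun n => |α n|) {σ : ℝ} (hσ : |σ| ≤ 1)
    (hrel : ∀ x : ℝ, 0 < x → ∑' n, α n * Real.cos (uu c lam n * x) =
      σ * x ^ (2 * m) * ∑' n, α n * Real.cos (uu c lam n / x))
    {Λ : ℂ → ℂ} (hΛ : Differentiable ℂ Λ) {R : ℝ}
    (hs : ∀ z : ℂ, R < z.re → HasSum (fun n : ℕ => if n = 0 then 0 else
      ((α n * uu c lam n ^ (2 * m + 1) : ℝ) : ℂ) * ((uu c lam n : ℝ) : ℂ) ^ (-z)) (Λ z * (Gamma z)⁻¹)) :
    Λ (2 * m + 1 - 2 * k) = 0 := by
  have hu0 : uu c lam 0 = 0 := by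
    unfold uu
    rw [Nat.cast_zero, Real.zero_rpow (by positivity), mul_zero]
  have hun : ∀ n, 0 ≤ uu c lam n := fun n => by unfold uu; positivity
  have hkR : (1 : ℝ) ≤ k := by exact_mod_cast hk
  obtain ⟨A, hAd⟩ : ∃ A : ℕ → ℝ, A = fun n => α n * uu c lam n ^ (2 * k) := ⟨_, rfl⟩
  have hA0 : A 0 = 0 := by
    rw [hAd]
    simp only [hu0]
    rw [zero_pow (by omega), mul_zero]
  have hS : Summable (fun n => |A n| * (uu c lam n) ^ (-((2 * k + 1 : ℝ) - 1))) := by
    refine Summable.of_nonneg_of_le (fun n => mul_nonneg (abs_nonneg _) (Real.rpow_nonneg (hun n) _))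
      (fun n => ?_) hα
    rcases eq_or_ne n 0 with rfl | hn
    · rw [hA0]; simp
    · have hu := uu_pos (lam := lam) hc hn
      rw [hAd]
      simp only
      rw [abs_mul, abs_of_pos (pow_pos hu _), mul_assoc, ← Real.rpow_natCast, ← Real.rpow_add hu]
      have : ((2 * k : ℕ) : ℝ) + -((2 * (k : ℝ) + 1) - 1) = 0 := by push_cast; ring
      rw [this, Real.rpow_zero, mul_one]
  have hκ : (1 : ℝ) < 2 * k + 1 := by linarith
  obtain ⟨C, hC0, hC⟩ := even_small hk hkm hα hun hσ hrel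
  have hbot : (fun t : ℝ => (psi c lam A t : ℂ)) =O[𝓝[>] 0] (· ^ (-(-1 : ℝ)) : ℝ → ℝ) := by
    refine IsBigO.of_bound C ?_
    filter_upwards [self_mem_nhdsWithin] with t ht
    have ht0 : (0 : ℝ) < t := ht
    rw [norm_real, Real.norm_eq_abs, neg_neg, Real.rpow_one, Real.norm_of_nonneg ht0.le]
    have := hC t ht0
    unfold psi
    rw [hAd]
    exact this
  have htop : ∀ r : ℝ, (fun t : ℝ => (psi c lam A t : ℂ)) =O[atTop] (· ^ r : ℝ → ℝ) := by
    intro r
    have := isBigO_top hc hlam hκ hA0 hS r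
    simpa using this
  have hint : LocallyIntegrableOn (fun t : ℝ => (psi c lam A t : ℂ)) (Ioi 0) := by
    refine ContinuousOn.locallyIntegrableOn ?_ measurableSet_Ioi
    exact Complex.continuous_ofReal.comp_continuousOn (psi_cont hc hlam (by linarith) hA0 hS)
  obtain ⟨H, hH⟩ : ∃ H : ℂ → ℂ, H = fun z => mellin (fun t : ℝ => (psi c lam A t : ℂ)) z * (Gamma z)⁻¹ := ⟨_, rfl⟩
  have hHd : ∀ z : ℂ, -1 < z.re → DifferentiableAt ℂ H z := by
    intro z hz
    rw [hH]
    refine DifferentiableAt.mul ?_ ?_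
    · exact mellin_differentiableAt_of_isBigO_rpow (a := z.re + 1) hint (htop _) (by linarith) hbot hz
    · have := Complex.differentiable_one_div_Gamma z
      simpa [one_div] using this
  have hHs : ∀ z : ℂ, 2 * k + 1 < z.re → HasSum (fun n : ℕ => if n = 0 then 0 else
      ((A n : ℝ) : ℂ) * ((uu c lam n : ℝ) : ℂ) ^ (-z)) (H z) := by
    intro z hz
    have hz0 : 0 < z.re := by linarith
    have h1 : HasSum (fun n : ℕ => Gamma z * (A n : ℂ) / ((uu c lam n : ℝ) : ℂ) ^ z)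
        (mellin (fun t : ℝ => (psi c lam A t : ℂ)) z) := by
      refine hasSum_mellin (a := fun n => (A n : ℂ)) (p := fun n => uu c lam n) ?_ hz0 ?_ ?_
      · intro n
        rcases eq_or_ne n 0 with rfl | hn
        · left; simp [hA0]
        · right; exact uu_pos hc hn
      · intro t ht
        have h2 := (summable_term hc hlam (by linarith : (0 : ℝ) < (2 * k + 1) - 1) hA0 hS ht).hasSum
        have h3 := Complex.hasSum_ofReal.2 h2
        have h4 : (fun n : ℕ => (A n : ℂ) * ((Real.exp (-(uu c lam n) * t) : ℝ) : ℂ)) =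
            (fun n : ℕ => ((A n * Real.exp (-(uu c lam n * t)) : ℝ) : ℂ)) := by
          funext n
          rw [Complex.ofReal_mul, neg_mul]
        rw [h4]
        exact h3
      · have h5 : ∀ n : ℕ, ‖(A n : ℂ)‖ / (uu c lam n) ^ z.re ≤
            c ^ (-(z.re - ((2 * k + 1 : ℝ) - 1))) * (|A n| * (uu c lam n) ^ (-((2 * k + 1 : ℝ) - 1))) := by
          intro n
          rcases eq_or_ne n 0 with rfl | hn
          · simp [hA0]
          · have hu := uu_pos (lam := lam) hc hn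
            have hcu := le_uu hc hlam hn
            rw [Complex.norm_real, Real.norm_eq_abs, div_eq_mul_inv, ← Real.rpow_neg hu.le]
            have e1 : (uu c lam n) ^ (-z.re) = (uu c lam n) ^ (-(z.re - ((2 * k + 1 : ℝ) - 1))) *
                (uu c lam n) ^ (-((2 * k + 1 : ℝ) - 1)) := by
              rw [← Real.rpow_add hu]; congr 1; ring
            have e2 : (uu c lam n) ^ (-(z.re - ((2 * k + 1 : ℝ) - 1))) ≤ c ^ (-(z.re - ((2 * k + 1 : ℝ) - 1))) :=
              Real.rpow_le_rpow_of_nonpos hc hcu (by linarith)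
            rw [e1]
            have e3 : 0 ≤ (uu c lam n) ^ (-((2 * k + 1 : ℝ) - 1)) := Real.rpow_nonneg hu.le _
            calc |A n| * ((uu c lam n) ^ (-(z.re - ((2 * k + 1 : ℝ) - 1))) * (uu c lam n) ^ (-((2 * k + 1 : ℝ) - 1)))
                = (uu c lam n) ^ (-(z.re - ((2 * k + 1 : ℝ) - 1))) *
                  (|A n| * (uu c lam n) ^ (-((2 * k + 1 : ℝ) - 1))) := by ring
              _ ≤ _ := mul_le_mul_of_nonneg_right e2 (by positivity)
        refine Summable.of_nonneg_of_le (fun n => ?_) h5 (hS.mul_left _)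
        exact div_nonneg (norm_nonneg _) (Real.rpow_nonneg (hun n) _)
    have hG : Gamma z ≠ 0 := Gamma_ne_zero_of_re_pos hz0
    have h2 := h1.mul_right (Gamma z)⁻¹
    rw [hH]
    refine h2.congr_fun fun n => ?_
    rcases eq_or_ne n 0 with rfl | hn
    · rw [if_pos rfl, hA0]; simp
    · rw [if_neg hn, cpow_neg]
      field_simp
  -- comparison
  obtain ⟨G, hG⟩ : ∃ G : ℂ → ℂ, G = fun z => Λ (z + (2 * m + 1 - 2 * k)) * (Gamma (z + (2 * m + 1 - 2 * k)))⁻¹ :=
    ⟨_, rfl⟩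
  have hGd : Differentiable ℂ G := by
    rw [hG]
    refine Differentiable.mul (hΛ.comp (by fun_prop)) ?_
    have := Complex.differentiable_one_div_Gamma.comp
      (show Differentiable ℂ fun z : ℂ => z + (2 * m + 1 - 2 * k) by fun_prop)
    simpa [one_div, Function.comp_def] using this
  have hEq : ∀ z : ℂ, max R (2 * k + 1) < z.re → G z = H z := by
    intro z hz
    have h1 : R < (z + (2 * m + 1 - 2 * k)).re := by
      have e : (z + (2 * m + 1 - 2 * k) : ℂ).re = z.re + (2 * m + 1 - 2 * k) := by simp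
      rw [e]
      have h2 : (k : ℝ) + 1 ≤ m := by exact_mod_cast hkm
      have := (le_max_left _ _).trans_lt hz
      linarith
    have h2 := hs _ h1
    have h3 := hHs z ((le_max_right _ _).trans_lt hz)
    rw [hG]
    refine h2.unique (h3.congr_fun fun n => ?_)
    rcases eq_or_ne n 0 with rfl | hn
    · simp
    · rw [if_neg hn, if_neg hn]
      have hu := uu_pos (lam := lam) hc hn
      have huc : ((uu c lam n : ℝ) : ℂ) ≠ 0 := by exact_mod_cast hu.ne'
      rw [hAd]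
      push_cast
      rw [mul_assoc, mul_assoc]
      congr 1
      rw [← cpow_natCast, ← cpow_natCast, ← cpow_add _ _ huc, ← cpow_add _ _ huc]
      congr 1
      push_cast
      ring
  have hU : IsPreconnected {z : ℂ | -1 < z.re} := (convex_halfSpace_re_gt (-1)).isPreconnected
  have ho : IsOpen {z : ℂ | -1 < z.re} := isOpen_lt continuous_const Complex.continuous_re
  have a1 : AnalyticOnNhd ℂ G {z : ℂ | -1 < z.re} := fun z _ => hGd.analyticAt z
  have a2 : AnalyticOnNhd ℂ H {z : ℂ | -1 < z.re} :=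
    (DifferentiableOn.analyticOnNhd (fun z hz => (hHd z hz).differentiableWithinAt) ho)
  obtain ⟨T, hT⟩ : ∃ T : ℝ, T = max R (2 * k + 1) := ⟨_, rfl⟩
  have hT0 : 0 < T := by
    rw [hT]
    exact lt_of_lt_of_le (by positivity) (le_max_right _ _)
  have h3 : G =ᶠ[𝓝 ((T + 1 : ℝ) : ℂ)] H := by
    have ho2 : IsOpen {z : ℂ | T < z.re} := isOpen_lt continuous_const Complex.continuous_re
    have hm2 : ((T + 1 : ℝ) : ℂ) ∈ {z : ℂ | T < z.re} := by
      change T < ((T + 1 : ℝ) : ℂ).re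
      rw [ofReal_re]
      linarith
    filter_upwards [ho2.mem_nhds hm2] with z hz
    exact hEq z (by rw [← hT]; exact hz)
  have h4 := a1.eqOn_of_preconnected_of_eventuallyEq a2 hU (z₀ := ((T + 1 : ℝ) : ℂ)) (by
    change (-1 : ℝ) < ((T + 1 : ℝ) : ℂ).re
    rw [ofReal_re]
    linarith) h3
  have h5 : G 0 = H 0 := h4 (by
    change (-1 : ℝ) < (0 : ℂ).re
    simp)
  rw [hG, hH] at h5
  simp only [zero_add] at h5
  rw [Complex.Gamma_zero, inv_zero, mul_zero] at h5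
  have hG0 : Gamma (2 * m + 1 - 2 * k : ℂ) ≠ 0 := by
    apply Gamma_ne_zero_of_re_pos
    have e : (2 * m + 1 - 2 * k : ℂ).re = 2 * m + 1 - 2 * k := by simp
    rw [e]
    have h2 : (k : ℝ) + 1 ≤ m := by exact_mod_cast hkm
    linarith
  exact (mul_eq_zero.1 h5).resolve_right (inv_ne_zero hG0)

end Pool.Agent.Q286.SZ
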